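import Pool.Agent.W_MP_56bea1_an.MaxPrinciple

namespace Pool.Agent.W_MP_56bea1_an

open Filter Topology Complex Matrix

variable {ι : Type*} [Fintype ι]

/-- The kernel matrix with `r = 1`, for points of the complex plane. -/
noncomputable def K (z : ι → ℂ) : Matrix ι ι ℝ := Matrix.of fun i j => 1 / (1 + ‖z i - z j‖)

lemma K_mulVec (z : ι → ℂ) (y : ι → ℝ) (j : ι) : (K z *ᵥ y) j = V z y (z j) := by
  simp only [Matrix.mulVec, dotProduct, K, Matrix.of_apply, V]
  refine Finset.sum_congr rfl fun i _ => ?_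
  ring

lemma K_symm (z : ι → ℂ) : (K z)ᵀ = K z := by
  ext i j
  simp only [Matrix.transpose_apply, K, Matrix.of_apply]
  rw [norm_sub_rev]

/-- Existence of a positive equilibrium. -/
lemma exists_equil [Nonempty ι] (z : ι → ℂ) (hsep : ∀ i j, i ≠ j → 2 ≤ ‖z i - z j‖) :
    ∃ x : ι → ℝ, (∀ i, 0 < x i) ∧ K z *ᵥ x = 1 := by
  classical
  set Q : (ι → ℝ) → ℝ := fun y => y ⬝ᵥ (K z *ᵥ y) with hQ
  have hQc : Continuous Q := by
    simp only [hQ]
    exact Continuous.dotProduct continuous_id (Continuous.matrix_mulVec continuous_const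
      continuous_id)
  obtain ⟨y, hy, hmin⟩ := (isCompact_stdSimplex ℝ ι).exists_isMinOn
    ⟨_, single_mem_stdSimplex ℝ (Classical.arbitrary ι)⟩ hQc.continuousOn
  have hy0 : ∀ i, 0 ≤ y i := hy.1
  have hy1 : ∑ i, y i = 1 := hy.2
  set A := K z with hA
  have hsymm : ∀ u v : ι → ℝ, u ⬝ᵥ (A *ᵥ v) = v ⬝ᵥ (A *ᵥ u) := by
    intro u v
    rw [dotProduct_mulVec, ← mulVec_transpose, K_symm, dotProduct_comm]
  -- first order conditions
  have hfirst : ∀ j, Q y ≤ (A *ᵥ y) j := by
    intro j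
    set d : ι → ℝ := Pi.single j 1 - y with hd
    have hmem : ∀ τ : ℝ, 0 ≤ τ → τ ≤ 1 → y + τ • d ∈ stdSimplex ℝ ι := by
      intro τ h0 h1
      have hconv := convex_stdSimplex ℝ ι hy (single_mem_stdSimplex ℝ j) (sub_nonneg.2 h1) h0
        (by ring)
      have : y + τ • d = (1 - τ) • y + τ • Pi.single j 1 := by
        rw [hd, smul_sub, sub_smul, one_smul]; abel
      rw [this]; exact hconv
    have hexp : ∀ τ : ℝ, Q (y + τ • d) = Q y + τ * (2 * (d ⬝ᵥ (A *ᵥ y)) + τ * Q d) := by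
      intro τ
      simp only [hQ, mulVec_add, mulVec_smul, dotProduct_add, add_dotProduct, smul_dotProduct,
        dotProduct_smul, smul_eq_mul]
      rw [hsymm y d]; ring
    have hineq : ∀ τ : ℝ, 0 < τ → τ ≤ 1 → 0 ≤ 2 * (d ⬝ᵥ (A *ᵥ y)) + τ * Q d := by
      intro τ h0 h1
      have := hmin (hmem τ h0.le h1)
      have h2 : Q y ≤ Q (y + τ • d) := this
      rw [hexp] at h2
      have h3 : 0 ≤ τ * (2 * (d ⬝ᵥ (A *ᵥ y)) + τ * Q d) := by linarith
      exact nonneg_of_mul_nonneg_right h3 h0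
    have hlim : 0 ≤ 2 * (d ⬝ᵥ (A *ᵥ y)) := by
      have ht : Tendsto (fun τ : ℝ => 2 * (d ⬝ᵥ (A *ᵥ y)) + τ * Q d) (𝓝[>] 0)
          (𝓝 (2 * (d ⬝ᵥ (A *ᵥ y)) + 0 * Q d)) := by
        apply Tendsto.mono_left _ nhdsWithin_le_nhds
        apply Continuous.tendsto'
        · fun_prop
        · rfl
      rw [zero_mul, add_zero] at ht
      refine ge_of_tendsto ht ?_
      have h1 : ∀ᶠ τ : ℝ in 𝓝[>] (0 : ℝ), τ < 1 :=
        (gt_mem_nhds (show (0 : ℝ) < 1 by norm_num)).filter_mono nhdsWithin_le_nhds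
      filter_upwards [self_mem_nhdsWithin, h1] with τ hτ hτ1
      exact hineq τ hτ hτ1.le
    have hdy : d ⬝ᵥ (A *ᵥ y) = (A *ᵥ y) j - Q y := by
      rw [hd, sub_dotProduct, single_dotProduct, one_mul]
    rw [hdy] at hlim
    linarith
  have heq : ∀ i, 0 < y i → (A *ᵥ y) i = Q y := by
    intro i hi
    have hz : ∑ j, y j * ((A *ᵥ y) j - Q y) = 0 := by
      simp only [mul_sub, Finset.sum_sub_distrib]
      rw [← Finset.sum_mul, hy1, one_mul]
      simp only [hQ, dotProduct]
      ring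
    have hall := (Finset.sum_eq_zero_iff_of_nonneg (fun j _ =>
      mul_nonneg (hy0 j) (sub_nonneg.2 (hfirst j)))).1 hz i (Finset.mem_univ i)
    rcases mul_eq_zero.1 hall with h | h
    · exact absurd h hi.ne'
    · linarith
  have hne : ∃ i, 0 < y i := by
    by_contra hcon
    push Not at hcon
    have : ∑ i, y i ≤ 0 := Finset.sum_nonpos fun i _ => hcon i
    linarith
  have hpos : ∀ i, 0 < y i := by
    intro c
    by_contra hc
    have hc0 : y c = 0 := le_antisymm (not_lt.1 hc) (hy0 c)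
    obtain ⟨t, ht, hle⟩ := max_principle z y hy0 hne
      (fun i j _ _ hij => hsep i j hij) (z c) (fun i hi => by
        have hci : c ≠ i := by rintro rfl; exact hc hi
        have := hsep c i hci
        linarith)
    rw [← K_mulVec, ← K_mulVec, ← hA, heq t ht] at hle
    have := hfirst c
    linarith
  have hlam : 0 < Q y := by
    obtain ⟨i, hi⟩ := hne
    rw [← heq i hi, hA, K_mulVec]
    unfold V
    exact Finset.sum_pos (fun j _ => mul_pos (hpos j) (by positivity)) ⟨i, Finset.mem_univ i⟩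
  refine ⟨(Q y)⁻¹ • y, fun i => ?_, ?_⟩
  · simp only [Pi.smul_apply, smul_eq_mul]
    exact mul_pos (inv_pos.2 hlam) (hpos i)
  · rw [mulVec_smul]
    ext i
    simp only [Pi.smul_apply, smul_eq_mul, Pi.one_apply]
    rw [heq i (hpos i)]
    exact inv_mul_cancel₀ hlam.ne'

/-- The kernel matrix is nonsingular. -/
lemma K_ker [Nonempty ι] (z : ι → ℂ) (hsep : ∀ i j, i ≠ j → 2 ≤ ‖z i - z j‖)
    (v : ι → ℝ) (hv : K z *ᵥ v = 0) : v = 0 := by
  classical
  by_contra hne
  obtain ⟨x, hx, hKx⟩ := exists_equil z hsep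
  -- we may assume that some entry is negative
  obtain ⟨u, hKu, k, hk⟩ : ∃ u : ι → ℝ, K z *ᵥ u = 0 ∧ ∃ k, u k < 0 := by
    obtain ⟨k, hk⟩ : ∃ k, v k ≠ 0 := by
      by_contra hcon
      push Not at hcon
      exact hne (funext hcon)
    rcases lt_or_gt_of_ne hk with h | h
    · exact ⟨v, hv, k, h⟩
    · exact ⟨-v, by rw [mulVec_neg, hv, neg_zero], k, by simpa using h⟩
  set S : Finset ι := Finset.univ.filter fun i => u i < 0 with hS
  have hSne : S.Nonempty := ⟨k, by simp [hS, hk]⟩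
  obtain ⟨c, hcS, hcmin⟩ := S.exists_min_image (fun i => x i / (-u i)) hSne
  have huc : u c < 0 := by simpa [hS] using hcS
  set τ : ℝ := x c / (-u c) with hτ
  have hτ0 : 0 < τ := div_pos (hx c) (by linarith)
  set x' : ι → ℝ := x + τ • u with hx'
  have hx'0 : ∀ i, 0 ≤ x' i := by
    intro i
    simp only [hx', Pi.add_apply, Pi.smul_apply, smul_eq_mul]
    by_cases hi : u i < 0
    · have h1 : τ ≤ x i / (-u i) := hcmin i (by simp [hS, hi])
      rw [le_div_iff₀ (by linarith)] at h1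
      linarith
    · push Not at hi
      have := mul_nonneg hτ0.le hi
      have := (hx i).le
      linarith
  have hx'c : x' c = 0 := by
    simp only [hx', Pi.add_apply, Pi.smul_apply, smul_eq_mul, hτ]
    have : u c ≠ 0 := huc.ne
    field_simp
    ring
  have hK' : K z *ᵥ x' = 1 := by
    rw [hx', mulVec_add, mulVec_smul, hKu, smul_zero, add_zero, hKx]
  have hne' : ∃ i, 0 < x' i := by
    by_contra hcon
    push Not at hcon
    have : x' = 0 := funext fun i => le_antisymm (hcon i) (hx'0 i)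
    rw [this, mulVec_zero] at hK'
    have := congrFun hK' c
    simp at this
  obtain ⟨t, ht, hle⟩ := max_principle z x' hx'0 hne'
    (fun i j _ _ hij => hsep i j hij) (z c) (fun i hi => by
      have hci : c ≠ i := by rintro rfl; linarith
      have := hsep c i hci
      linarith)
  rw [← K_mulVec, ← K_mulVec, hK'] at hle
  simp only [Pi.one_apply] at hle
  linarith

end Pool.Agent.W_MP_56bea1_an
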