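import Mathlib

namespace Pool.Agent.W_MP_56bea1_an

lemma c0_nonneg {w : ℝ} (h0 : 0 ≤ w) (h2 : w ≤ 2) : 0 ≤ 89216 - 670336 * w + 1018432 * w ^ 2 + 8167200 * w ^ 3 + 10715560 * w ^ 4 + 1629600 * w ^ 5 - 6018720 * w ^ 6 - 3703100 * w ^ 7 + 562350 * w ^ 8 + 1204300 * w ^ 9 + 407075 * w ^ 10 + 45125 * w ^ 11 := by
  rcases le_total w (1 / 4) with h | h
  · obtain ⟨t, ht, hwt⟩ : ∃ t : ℝ, 0 ≤ t ∧ t = 1 / 4 - w := ⟨1 / 4 - w, by linarith, rfl⟩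
    have e : 89216 - 670336 * w + 1018432 * w ^ 2 + 8167200 * w ^ 3 + 10715560 * w ^ 4 + 1629600 * w ^ 5 - 6018720 * w ^ 6 - 3703100 * w ^ 7 + 562350 * w ^ 8 + 1204300 * w ^ 9 + 407075 * w ^ 10 + 45125 * w ^ 11 = 374199025664 * w ^ 0 * t ^ 11 + 3413291040768 * w ^ 1 * t ^ 10 + 13818939834368 * w ^ 2 * t ^ 9 + 33050446528512 * w ^ 3 * t ^ 8 + 53206548348928 * w ^ 4 * t ^ 7 + 63919787868160 * w ^ 5 * t ^ 6 + 63083027595264 * w ^ 6 * t ^ 5 + 53196286215168 * w ^ 7 * t ^ 4 + 36007615216512 * w ^ 8 * t ^ 3 + 17268301700928 * w ^ 9 * t ^ 2 + 5006489875596 * w ^ 10 * t ^ 1 + 648706587921 * w ^ 11 * t ^ 0 := by rw [hwt]; ring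
    rw [e]; positivity
  · obtain ⟨t, ht, hwt⟩ : ∃ t : ℝ, 0 ≤ t ∧ t = 2 - w := ⟨2 - w, by linarith, rfl⟩
    obtain ⟨u, hu, hwu⟩ : ∃ u : ℝ, 0 ≤ u ∧ u = w - 1 / 4 := ⟨w - 1 / 4, by linarith, rfl⟩
    have e : 89216 - 670336 * w + 1018432 * w ^ 2 + 8167200 * w ^ 3 + 10715560 * w ^ 4 + 1629600 * w ^ 5 - 6018720 * w ^ 6 - 3703100 * w ^ 7 + 562350 * w ^ 8 + 1204300 * w ^ 9 + 407075 * w ^ 10 + 45125 * w ^ 11 = (92672369703 / 282475249) * u ^ 0 * t ^ 11 + (3148678658268 / 282475249) * u ^ 1 * t ^ 10 + (46565663213376 / 282475249) * u ^ 2 * t ^ 9 + (349121862451584 / 282475249) * u ^ 3 * t ^ 8 + (1494265408920576 / 282475249) * u ^ 4 * t ^ 7 + (78953023119360 / 5764801) * u ^ 5 * t ^ 6 + (871705895305216 / 40353607) * u ^ 6 * t ^ 5 + (5605320056242176 / 282475249) * u ^ 7 * t ^ 4 + (2717333464285184 / 282475249)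 * u ^ 8 * t ^ 3 + (872209056792576 / 282475249) * u ^ 9 * t ^ 2 + (746412165824512 / 282475249) * u ^ 10 * t ^ 1 + (420859550367744 / 282475249) * u ^ 11 * t ^ 0 := by rw [hwt, hwu]; ring
    rw [e]; positivity

lemma c1_nonneg {w : ℝ} (h0 : 0 ≤ w) (h2 : w ≤ 2) : 0 ≤ 751360 - 2035840 * w + 12694688 * w ^ 2 + 45697760 * w ^ 3 + 37526680 * w ^ 4 - 9857120 * w ^ 5 - 23900260 * w ^ 6 - 4174900 * w ^ 7 + 5792550 * w ^ 8 + 2949850 * w ^ 9 + 408025 * w ^ 10 := by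
  obtain ⟨t, ht, hwt⟩ : ∃ t : ℝ, 0 ≤ t ∧ t = 2 - w := ⟨2 - w, by linarith, rfl⟩
  have e : 751360 - 2035840 * w + 12694688 * w ^ 2 + 45697760 * w ^ 3 + 37526680 * w ^ 4 - 9857120 * w ^ 5 - 23900260 * w ^ 6 - 4174900 * w ^ 7 + 5792550 * w ^ 8 + 2949850 * w ^ 9 + 408025 * w ^ 10 = (2935 / 4) * w ^ 0 * t ^ 10 + (13445 / 4) * w ^ 1 * t ^ 9 + (374569 / 8) * w ^ 2 * t ^ 8 + (2794511 / 4) * w ^ 3 * t ^ 7 + (34352117 / 8) * w ^ 4 * t ^ 6 + (26336481 / 2) * w ^ 5 * t ^ 5 + (171049115 / 8) * w ^ 6 * t ^ 4 + (68705197 / 4) * w ^ 7 * t ^ 3 + (43284497 / 8) * w ^ 8 * t ^ 2 + (6703421 / 4) * w ^ 9 * t ^ 1 + 1997138 * w ^ 10 * t ^ 0 := by rw [hwt]; ring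
  rw [e]; positivity

lemma c2_nonneg {w : ℝ} (h0 : 0 ≤ w) (h2 : w ≤ 2) : 0 ≤ 2740992 + 496448 * w + 46126576 * w ^ 2 + 98601960 * w ^ 3 + 39231060 * w ^ 4 - 40988460 * w ^ 5 - 26759170 * w ^ 6 + 8067600 * w ^ 7 + 8691925 * w ^ 8 + 1588875 * w ^ 9 := by
  obtain ⟨t, ht, hwt⟩ : ∃ t : ℝ, 0 ≤ t ∧ t = 2 - w := ⟨2 - w, by linarith, rfl⟩
  have e : 2740992 + 496448 * w + 46126576 * w ^ 2 + 98601960 * w ^ 3 + 39231060 * w ^ 4 - 40988460 * w ^ 5 - 26759170 * w ^ 6 + 8067600 * w ^ 7 + 8691925 * w ^ 8 + 1588875 * w ^ 9 = (10707 / 2) * w ^ 0 * t ^ 9 + (200483 / 4) * w ^ 1 * t ^ 8 + (4548831 / 8) * w ^ 2 * t ^ 7 + (18268783 / 4) * w ^ 3 * t ^ 6 + (75282739 / 4) * w ^ 4 * t ^ 5 + (320807463 / 8) * w ^ 5 * t ^ 4 + (341214681 / 8) * w ^ 6 * t ^ 3 + (79182983 / 4) * w ^ 7 * t ^ 2 + (24231953 / 4) * w ^ 8 * t ^ 1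 + (41434763 / 8) * w ^ 9 * t ^ 0 := by rw [hwt]; ring
  rw [e]; positivity

lemma c3_nonneg {w : ℝ} (h0 : 0 ≤ w) (h2 : w ≤ 2) : 0 ≤ 5739584 + 10483136 * w + 80103832 * w ^ 2 + 103055560 * w ^ 3 - 2019920 * w ^ 4 - 47130120 * w ^ 5 - 2805410 * w ^ 6 + 13054700 * w ^ 7 + 3465325 * w ^ 8 := by
  obtain ⟨t, ht, hwt⟩ : ∃ t : ℝ, 0 ≤ t ∧ t = 2 - w := ⟨2 - w, by linarith, rfl⟩
  have e : 5739584 + 10483136 * w + 80103832 * w ^ 2 + 103055560 * w ^ 3 - 2019920 * w ^ 4 - 47130120 * w ^ 5 - 2805410 * w ^ 6 + 13054700 * w ^ 7 + 3465325 * w ^ 8 = (89681 / 4) * w ^ 0 * t ^ 8 + (522523 / 2) * w ^ 1 * t ^ 7 + (19621487 / 8) * w ^ 2 * t ^ 6 + 13705644 * w ^ 3 * t ^ 5 + (313491375 / 8) * w ^ 4 * t ^ 4 + (109926163 / 2) * w ^ 5 * t ^ 3 + (273553897 / 8) * w ^ 6 * t ^ 2 + 11310694 * w ^ 7 * t ^ 1 + (62801927 / 8) * w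 ^ 8 * t ^ 0 := by rw [hwt]; ring
  rw [e]; positivity

lemma c4_nonneg {w : ℝ} (h0 : 0 ≤ w) (h2 : w ≤ 2) : 0 ≤ 7640008 + 19816232 * w + 76024264 * w ^ 2 + 50144220 * w ^ 3 - 27823000 * w ^ 4 - 17146460 * w ^ 5 + 9878550 * w ^ 6 + 4608600 * w ^ 7 := by
  obtain ⟨t, ht, hwt⟩ : ∃ t : ℝ, 0 ≤ t ∧ t = 2 - w := ⟨2 - w, by linarith, rfl⟩
  have e : 7640008 + 19816232 * w + 76024264 * w ^ 2 + 50144220 * w ^ 3 - 27823000 * w ^ 4 - 17146460 * w ^ 5 + 9878550 * w ^ 6 + 4608600 * w ^ 7 = (955001 / 16) * w ^ 0 * t ^ 7 + (11639065 / 16) * w ^ 1 * t ^ 6 + (87791501 / 16) * w ^ 2 * t ^ 5 + (347940785 / 16) * w ^ 3 * t ^ 4 + (657558395 / 16) * w ^ 4 * t ^ 3 + (539828691 / 16) * w ^ 5 * t ^ 2 + (201965615 / 16) * w ^ 6 * t ^ 1 + (122599571 / 16) * w ^ 7 * t ^ 0 := by rw [hwt]; ring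
  rw [e]; positivity

lemma c5_nonneg {w : ℝ} (h0 : 0 ≤ w) (h2 : w ≤ 2) : 0 ≤ 6719024 + 18278776 * w + 39764464 * w ^ 2 + 5093080 * w ^ 3 - 15245800 * w ^ 4 + 2400600 * w ^ 5 + 3807250 * w ^ 6 := by
  obtain ⟨t, ht, hwt⟩ : ∃ t : ℝ, 0 ≤ t ∧ t = 2 - w := ⟨2 - w, by linarith, rfl⟩
  have e : 6719024 + 18278776 * w + 39764464 * w ^ 2 + 5093080 * w ^ 3 - 15245800 * w ^ 4 + 2400600 * w ^ 5 + 3807250 * w ^ 6 = (419939 / 4) * w ^ 0 * t ^ 6 + (4804481 / 4) * w ^ 1 * t ^ 5 + 6916109 * w ^ 2 * t ^ 4 + (36779127 / 2) * w ^ 3 * t ^ 3 + (81188071 / 4) * w ^ 4 * t ^ 2 + (35657553 / 4) * w ^ 5 * t ^ 1 + (9988421 / 2) * w ^ 6 * t ^ 0 := by rw [hwt]; ring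
  rw [e]; positivity

lemma c6_nonneg {w : ℝ} (h0 : 0 ≤ w) (h2 : w ≤ 2) : 0 ≤ 3906172 + 9297628 * w + 10108540 * w ^ 2 - 4053600 * w ^ 3 - 1355900 * w ^ 4 + 1897900 * w ^ 5 := by
  obtain ⟨t, ht, hwt⟩ : ∃ t : ℝ, 0 ≤ t ∧ t = 2 - w := ⟨2 - w, by linarith, rfl⟩
  have e : 3906172 + 9297628 * w + 10108540 * w ^ 2 - 4053600 * w ^ 3 - 1355900 * w ^ 4 + 1897900 * w ^ 5 = (976543 / 8) * w ^ 0 * t ^ 5 + (9531529 / 8) * w ^ 1 * t ^ 4 + (19234613 / 4) * w ^ 2 * t ^ 3 + (29938367 / 4) * w ^ 3 * t ^ 2 + (32165591 / 8) * w ^ 4 * t ^ 1 + (17386297 / 8) * w ^ 5 * t ^ 0 := by rw [hwt]; ring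
  rw [e]; positivity

lemma c7_nonneg {w : ℝ} (h0 : 0 ≤ w) (h2 : w ≤ 2) : 0 ≤ 1446620 + 2473040 * w + 577780 * w ^ 2 - 915600 * w ^ 3 + 522600 * w ^ 4 := by
  obtain ⟨t, ht, hwt⟩ : ∃ t : ℝ, 0 ≤ t ∧ t = 2 - w := ⟨2 - w, by linarith, rfl⟩
  have e : 1446620 + 2473040 * w + 577780 * w ^ 2 - 915600 * w ^ 3 + 522600 * w ^ 4 = (361655 / 4) * w ^ 0 * t ^ 4 + 670785 * w ^ 1 * t ^ 3 + (3228635 / 2) * w ^ 2 * t ^ 2 + 1120135 * w ^ 3 * t ^ 1 + (2435155 / 4) * w ^ 4 * t ^ 0 := by rw [hwt]; ring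
  rw [e]; positivity

lemma c8_nonneg {w : ℝ} (h0 : 0 ≤ w) (h2 : w ≤ 2) : 0 ≤ 309200 + 253000 * w - 135800 * w ^ 2 + 65600 * w ^ 3 := by
  obtain ⟨t, ht, hwt⟩ : ∃ t : ℝ, 0 ≤ t ∧ t = 2 - w := ⟨2 - w, by linarith, rfl⟩
  have e : 309200 + 253000 * w - 135800 * w ^ 2 + 65600 * w ^ 3 = 38650 * w ^ 0 * t ^ 3 + 179200 * w ^ 1 * t ^ 2 + 174550 * w ^ 2 * t ^ 1 + 99600 * w ^ 3 * t ^ 0 := by rw [hwt]; ring
  rw [e]; positivity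

lemma c9_nonneg {w : ℝ} (h0 : 0 ≤ w) (h2 : w ≤ 2) : 0 ≤ 29000 - 6000 * w + 3000 * w ^ 2 := by
  obtain ⟨t, ht, hwt⟩ : ∃ t : ℝ, 0 ≤ t ∧ t = 2 - w := ⟨2 - w, by linarith, rfl⟩
  have e : 29000 - 6000 * w + 3000 * w ^ 2 = 7250 * w ^ 0 * t ^ 2 + 11500 * w ^ 1 * t ^ 1 + 7250 * w ^ 2 * t ^ 0 := by rw [hwt]; ring
  rw [e]; positivity

/-- The polynomial inequality behind the certificate. -/
lemma poly_nonneg (z w : ℝ) (hz : 0 ≤ z) (h0 : 0 ≤ w) (h2 : w ≤ 2) :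
    0 ≤ (89216 - 670336 * w + 1018432 * w ^ 2 + 8167200 * w ^ 3 + 10715560 * w ^ 4 + 1629600 * w ^ 5 - 6018720 * w ^ 6 - 3703100 * w ^ 7 + 562350 * w ^ 8 + 1204300 * w ^ 9 + 407075 * w ^ 10 + 45125 * w ^ 11) + z * (751360 - 2035840 * w + 12694688 * w ^ 2 + 45697760 * w ^ 3 + 37526680 * w ^ 4 - 9857120 * w ^ 5 - 23900260 * w ^ 6 - 4174900 * w ^ 7 + 5792550 * w ^ 8 + 2949850 * w ^ 9 + 408025 * w ^ 10) + z ^ 2 * (2740992 + 496448 * w + 46126576 * w ^ 2 + 98601960 * w ^ 3 + 39231060 * w ^ 4 - 40988460 * w ^ 5 - 26759170 * w ^ 6 + 8067600 * w ^ 7 + 8691925 * w ^ 8 + 1588875 * w ^ 9) + z ^ 3 * (5739584 + 10483136 * w + 80103832 * w ^ 2 + 103055560 * w ^ 3 - 2019920 * w ^ 4 - 47130120 * w ^ 5 - 2805410 * w ^ 6 + 13054700 * w ^ 7 + 3465325 * w ^ 8) + z ^ 4 * (7640008 + 19816232 * w + 76024264 * w ^ 2 + 50144220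 * w ^ 3 - 27823000 * w ^ 4 - 17146460 * w ^ 5 + 9878550 * w ^ 6 + 4608600 * w ^ 7) + z ^ 5 * (6719024 + 18278776 * w + 39764464 * w ^ 2 + 5093080 * w ^ 3 - 15245800 * w ^ 4 + 2400600 * w ^ 5 + 3807250 * w ^ 6) + z ^ 6 * (3906172 + 9297628 * w + 10108540 * w ^ 2 - 4053600 * w ^ 3 - 1355900 * w ^ 4 + 1897900 * w ^ 5) + z ^ 7 * (1446620 + 2473040 * w + 577780 * w ^ 2 - 915600 * w ^ 3 + 522600 * w ^ 4) + z ^ 8 * (309200 + 253000 * w - 135800 * w ^ 2 + 65600 * w ^ 3) + z ^ 9 * (29000 - 6000 * w + 3000 * w ^ 2) := by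
  have e0 := c0_nonneg h0 h2
  have e1 := mul_nonneg hz (c1_nonneg h0 h2)
  have e2 := mul_nonneg (pow_nonneg hz 2) (c2_nonneg h0 h2)
  have e3 := mul_nonneg (pow_nonneg hz 3) (c3_nonneg h0 h2)
  have e4 := mul_nonneg (pow_nonneg hz 4) (c4_nonneg h0 h2)
  have e5 := mul_nonneg (pow_nonneg hz 5) (c5_nonneg h0 h2)
  have e6 := mul_nonneg (pow_nonneg hz 6) (c6_nonneg h0 h2)
  have e7 := mul_nonneg (pow_nonneg hz 7) (c7_nonneg h0 h2)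
  have e8 := mul_nonneg (pow_nonneg hz 8) (c8_nonneg h0 h2)
  have e9 := mul_nonneg (pow_nonneg hz 9) (c9_nonneg h0 h2)
  exact add_nonneg (add_nonneg (add_nonneg (add_nonneg (add_nonneg (add_nonneg (add_nonneg
    (add_nonneg (add_nonneg e0 e1) e2) e3) e4) e5) e6) e7) e8) e9

/-- `D0`, with `Y ^ 2` already expressed by the two distances. -/
noncomputable def D0 (a b : ℝ) : ℝ :=
  (a ^ 2 + 1 + 4 * b ^ 2) ^ 2 + 36 * (a ^ 2 - ((a ^ 2 + 1 - b ^ 2) / 2) ^ 2)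
    + 5 * (6 * b ^ 2 + 4 * b) * (a ^ 2 + 1 + 4 * b ^ 2) + 25 * (b ^ 4 + 4 * b ^ 3)

noncomputable def D1 (a b : ℝ) : ℝ := 2 * (a ^ 2 + 1 + 4 * b ^ 2) + 5 * (6 * b ^ 2 + 4 * b)

noncomputable def Y2 (a b : ℝ) : ℝ := a ^ 2 - ((a ^ 2 + 1 - b ^ 2) / 2) ^ 2

noncomputable def DD (a b : ℝ) : ℝ := D0 a b ^ 2 - D1 a b ^ 2 * (36 * Y2 a b)

noncomputable def NN (a b : ℝ) : ℝ :=
  2 * (20 * b * (5 * b ^ 2 + (a ^ 2 + 1 + 4 * b ^ 2)) * D0 a b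
    - 20 * b * D1 a b * (36 * Y2 a b))

noncomputable def PP (a b : ℝ) : ℝ :=
  10 * (b * (1 + b) ^ 2 * DD a b - 4 * (1 + a) * b * (1 + b) * DD a b)
    + 16 * ((a ^ 2 + 1 - b ^ 2) / 2 - 1) * (1 + a) * DD a b
    + 15 * NN a b * (1 + a) * b * (1 + b) ^ 2

lemma PP_nonneg (a b : ℝ) (ha : 2 ≤ a) (h1 : a ≤ b + 1) (h2 : b ≤ a + 1) : 0 ≤ PP a b := by
  obtain ⟨z, hz⟩ : ∃ z : ℝ, z = a - 2 := ⟨_, rfl⟩
  obtain ⟨w, hw⟩ : ∃ w : ℝ, w = b - a + 1 := ⟨_, rfl⟩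
  have ea : a = z + 2 := by rw [hz]; ring
  have eb : b = z + 1 + w := by rw [hz, hw]; ring
  have key := poly_nonneg z w (by linarith) (by linarith) (by linarith)
  have : PP a b = 8 * ((89216 - 670336 * w + 1018432 * w ^ 2 + 8167200 * w ^ 3 + 10715560 * w ^ 4 + 1629600 * w ^ 5 - 6018720 * w ^ 6 - 3703100 * w ^ 7 + 562350 * w ^ 8 + 1204300 * w ^ 9 + 407075 * w ^ 10 + 45125 * w ^ 11) + z * (751360 - 2035840 * w + 12694688 * w ^ 2 + 45697760 * w ^ 3 + 37526680 * w ^ 4 - 9857120 * w ^ 5 - 23900260 * w ^ 6 - 4174900 * w ^ 7 + 5792550 * w ^ 8 + 2949850 * w ^ 9 + 408025 * w ^ 10) + z ^ 2 * (2740992 + 496448 * w + 46126576 * w ^ 2 + 98601960 * w ^ 3 + 39231060 * w ^ 4 - 40988460 * w ^ 5 - 26759170 * w ^ 6 + 8067600 * w ^ 7 + 8691925 * w ^ 8 + 1588875 * w ^ 9) + z ^ 3 * (5739584 + 10483136 * w + 80103832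 * w ^ 2 + 103055560 * w ^ 3 - 2019920 * w ^ 4 - 47130120 * w ^ 5 - 2805410 * w ^ 6 + 13054700 * w ^ 7 + 3465325 * w ^ 8) + z ^ 4 * (7640008 + 19816232 * w + 76024264 * w ^ 2 + 50144220 * w ^ 3 - 27823000 * w ^ 4 - 17146460 * w ^ 5 + 9878550 * w ^ 6 + 4608600 * w ^ 7) + z ^ 5 * (6719024 + 18278776 * w + 39764464 * w ^ 2 + 5093080 * w ^ 3 - 15245800 * w ^ 4 + 2400600 * w ^ 5 + 3807250 * w ^ 6) + z ^ 6 * (3906172 + 9297628 * w + 10108540 * w ^ 2 - 4053600 * w ^ 3 - 1355900 * w ^ 4 + 1897900 * w ^ 5) + z ^ 7 * (1446620 + 2473040 * w + 577780 * w ^ 2 - 915600 * w ^ 3 + 522600 * w ^ 4) + z ^ 8 * (309200 + 253000 * w - 135800 * w ^ 2 + 65600 * w ^ 3) + z ^ 9 * (29000 - 6000 * w + 3000 * w ^ 2)) := by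
    rw [ea, eb]; simp only [PP, DD, NN, D0, D1, Y2]; ring
  rw [this]; positivity

/-- Rational lower bound for `1 / (1 + u)`, exact to third order at `u = b`. -/
lemma low_bound (b u : ℝ) (hb : 0 < b) (hu : 0 ≤ u) :
    20 * b * (5 * b ^ 2 + 5 * u ^ 2) /
      ((5 * u ^ 2) ^ 2 + 5 * (6 * b ^ 2 + 4 * b) * (5 * u ^ 2) + 25 * (b ^ 4 + 4 * b ^ 3))
      ≤ 1 / (1 + u) := by
  have hden : 0 < (5 * u ^ 2) ^ 2 + 5 * (6 * b ^ 2 + 4 * b) * (5 * u ^ 2)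
      + 25 * (b ^ 4 + 4 * b ^ 3) := by positivity
  rw [div_le_div_iff₀ hden (by positivity)]
  have h4 : 0 ≤ (b - u) ^ 4 := by positivity
  nlinarith [h4]

lemma main_ineq (a b Y : ℝ) (ha : 2 ≤ a) (hb : 1 ≤ b) (h1 : a ≤ b + 1) (h2 : b ≤ a + 1)
    (hY : Y ^ 2 = Y2 a b) (hQ1 : 0 ≤ a ^ 2 + 1 + 4 * b ^ 2 - 6 * Y)
    (hQ2 : 0 ≤ a ^ 2 + 1 + 4 * b ^ 2 + 6 * Y) :
    0 ≤ 1 / (1 + a) - 4 / (1 + b)
      + (8 / 5) * (((a ^ 2 + 1 - b ^ 2) / 2 - 1) / (b * (1 + b) ^ 2))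
      + (3 / 2) * (20 * b * (5 * b ^ 2 + (a ^ 2 + 1 + 4 * b ^ 2 - 6 * Y)) /
          ((a ^ 2 + 1 + 4 * b ^ 2 - 6 * Y) ^ 2
            + 5 * (6 * b ^ 2 + 4 * b) * (a ^ 2 + 1 + 4 * b ^ 2 - 6 * Y)
            + 25 * (b ^ 4 + 4 * b ^ 3))
        + 20 * b * (5 * b ^ 2 + (a ^ 2 + 1 + 4 * b ^ 2 + 6 * Y)) /
          ((a ^ 2 + 1 + 4 * b ^ 2 + 6 * Y) ^ 2
            + 5 * (6 * b ^ 2 + 4 * b) * (a ^ 2 + 1 + 4 * b ^ 2 + 6 * Y)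
            + 25 * (b ^ 4 + 4 * b ^ 3))) := by
  have hb0 : 0 < b := by linarith
  set q1 := a ^ 2 + 1 + 4 * b ^ 2 - 6 * Y with hq1
  set q2 := a ^ 2 + 1 + 4 * b ^ 2 + 6 * Y with hq2
  have hd1 : 0 < q1 ^ 2 + 5 * (6 * b ^ 2 + 4 * b) * q1 + 25 * (b ^ 4 + 4 * b ^ 3) := by
    positivity
  have hd2 : 0 < q2 ^ 2 + 5 * (6 * b ^ 2 + 4 * b) * q2 + 25 * (b ^ 4 + 4 * b ^ 3) := by
    positivity
  have hDD : (q1 ^ 2 + 5 * (6 * b ^ 2 + 4 * b) * q1 + 25 * (b ^ 4 + 4 * b ^ 3)) *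
      (q2 ^ 2 + 5 * (6 * b ^ 2 + 4 * b) * q2 + 25 * (b ^ 4 + 4 * b ^ 3)) = DD a b := by
    have hY4 : Y ^ 4 = (Y2 a b) ^ 2 := by rw [← hY]; ring
    have e : DD a b = ((a ^ 2 + 1 + 4 * b ^ 2) ^ 2 + 36 * Y ^ 2
        + 5 * (6 * b ^ 2 + 4 * b) * (a ^ 2 + 1 + 4 * b ^ 2) + 25 * (b ^ 4 + 4 * b ^ 3)) ^ 2
        - D1 a b ^ 2 * (36 * Y ^ 2) := by
      rw [hY]; simp only [DD, D0, D1, Y2]
    rw [e, hq1, hq2]; simp only [D1]; ring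
  have hNN : 20 * b * (5 * b ^ 2 + q1) *
      (q2 ^ 2 + 5 * (6 * b ^ 2 + 4 * b) * q2 + 25 * (b ^ 4 + 4 * b ^ 3)) +
      (q1 ^ 2 + 5 * (6 * b ^ 2 + 4 * b) * q1 + 25 * (b ^ 4 + 4 * b ^ 3)) *
        (20 * b * (5 * b ^ 2 + q2)) = NN a b := by
    have e : NN a b = 2 * (20 * b * (5 * b ^ 2 + (a ^ 2 + 1 + 4 * b ^ 2)) *
        ((a ^ 2 + 1 + 4 * b ^ 2) ^ 2 + 36 * Y ^ 2
        + 5 * (6 * b ^ 2 + 4 * b) * (a ^ 2 + 1 + 4 * b ^ 2) + 25 * (b ^ 4 + 4 * b ^ 3))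
        - 20 * b * D1 a b * (36 * Y ^ 2)) := by
      rw [hY]; simp only [NN, D0, D1, Y2]
    rw [e, hq1, hq2]; simp only [D1]; ring
  rw [div_add_div _ _ hd1.ne' hd2.ne', hNN, hDD]
  have hDDpos : 0 < DD a b := by rw [← hDD]; positivity
  have hfin : 1 / (1 + a) - 4 / (1 + b)
      + (8 / 5) * (((a ^ 2 + 1 - b ^ 2) / 2 - 1) / (b * (1 + b) ^ 2))
      + (3 / 2) * (NN a b / DD a b) = PP a b / (10 * (1 + a) * b * (1 + b) ^ 2 * DD a b) := by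
    have e1 : (1 + a) ≠ 0 := by positivity
    have e2 : (1 + b) ≠ 0 := by positivity
    have e3 : b ≠ 0 := hb0.ne'
    have e4 : DD a b ≠ 0 := hDDpos.ne'
    unfold PP
    generalize DD a b = d at *
    generalize NN a b = n at *
    field_simp
    ring
  rw [hfin]
  exact div_nonneg (PP_nonneg a b ha h1 h2) (by positivity)

end Pool.Agent.W_MP_56bea1_an
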