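import Pool.Agent.W_MP_56bea1_an.Ineq

namespace Pool.Agent.W_MP_56bea1_an

open Filter Topology Complex

lemma norm_sq_eq (s : ℂ) : ‖s‖ ^ 2 = s.re ^ 2 + s.im ^ 2 := by
  rw [← Complex.normSq_eq_norm_sq, Complex.normSq_apply]; ring

/-- The unit complex number `4/5 + 3i/5`. -/
noncomputable def om : ℂ := ⟨4 / 5, 3 / 5⟩

/-- The unit complex number `4/5 - 3i/5`. -/
noncomputable def om' : ℂ := ⟨4 / 5, -(3 / 5)⟩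

lemma norm_om : ‖om‖ = 1 := by
  have h := norm_sq_eq om
  simp only [om] at h
  have h0 := norm_nonneg om
  simp only [om] at h0 ⊢
  nlinarith

lemma norm_om' : ‖om'‖ = 1 := by
  have h := norm_sq_eq om'
  simp only [om'] at h
  have h0 := norm_nonneg om'
  simp only [om'] at h0 ⊢
  nlinarith

/-- The certificate. -/
noncomputable def F (s : ℂ) : ℝ :=
  1 / (1 + ‖s‖) + (3 / 2) * (1 / (1 + ‖om - s‖) + 1 / (1 + ‖om' - s‖)) - 4 / (1 + ‖1 - s‖)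
    + (8 / 5) * ((s.re - 1) / (‖1 - s‖ * (1 + ‖1 - s‖) ^ 2))

lemma F_zero : F 0 = 1 / 10 := by
  simp only [F, sub_zero, norm_om, norm_om', norm_one, norm_zero, Complex.zero_re]
  norm_num

lemma F_nonneg (s : ℂ) (hs : 2 ≤ ‖s‖) : 0 ≤ F s := by
  have ha0 := norm_nonneg s
  have hb0 := norm_nonneg (1 - s)
  have hu0 := norm_nonneg (om - s)
  have hv0 := norm_nonneg (om' - s)
  have ha := norm_sq_eq s
  have hb := norm_sq_eq (1 - s)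
  have hu := norm_sq_eq (om - s)
  have hv := norm_sq_eq (om' - s)
  have h1 : ‖s‖ ≤ ‖1 - s‖ + 1 := by
    have := norm_sub_norm_le s 1
    rw [norm_one, norm_sub_rev] at this; linarith
  have h2 : ‖1 - s‖ ≤ ‖s‖ + 1 := by
    have := norm_sub_le 1 s
    rw [norm_one] at this; linarith
  simp only [Complex.sub_re, Complex.sub_im, Complex.one_re, Complex.one_im, om, om'] at hb hu hv
  have hbb : 1 ≤ ‖1 - s‖ := by linarith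
  have hre : s.re = (‖s‖ ^ 2 + 1 - ‖1 - s‖ ^ 2) / 2 := by nlinarith
  have hY : s.im ^ 2 = Y2 ‖s‖ ‖1 - s‖ := by
    unfold Y2; rw [← hre]; linarith
  have hu' : 5 * ‖om - s‖ ^ 2 = ‖s‖ ^ 2 + 1 + 4 * ‖1 - s‖ ^ 2 - 6 * s.im := by
    simp only [om]; nlinarith
  have hv' : 5 * ‖om' - s‖ ^ 2 = ‖s‖ ^ 2 + 1 + 4 * ‖1 - s‖ ^ 2 + 6 * s.im := by
    simp only [om']; nlinarith
  have L1 := low_bound ‖1 - s‖ ‖om - s‖ (by linarith) hu0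
  have L2 := low_bound ‖1 - s‖ ‖om' - s‖ (by linarith) hv0
  rw [hu'] at L1
  rw [hv'] at L2
  have M := main_ineq ‖s‖ ‖1 - s‖ s.im hs hbb h1 h2 hY (by rw [← hu']; positivity)
    (by rw [← hv']; positivity)
  have hre' : s.re - 1 = (‖s‖ ^ 2 + 1 - ‖1 - s‖ ^ 2) / 2 - 1 := by rw [← hre]
  unfold F
  rw [hre']
  linarith

/-- Third order Taylor lower bound. -/
lemma T3_le (r u : ℝ) (hr : 0 < r) (hu : 0 ≤ u) :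
    1 / (1 + r) - (u ^ 2 - r ^ 2) / (2 * r * (1 + r) ^ 2)
      + (1 + 3 * r) * (u ^ 2 - r ^ 2) ^ 2 / (8 * r ^ 3 * (1 + r) ^ 3)
      - (1 + 4 * r + 5 * r ^ 2) * (u ^ 2 - r ^ 2) ^ 3 / (16 * r ^ 5 * (1 + r) ^ 4)
      ≤ 1 / (1 + u) := by
  have h1 : (1 + u) ≠ 0 := by positivity
  have h2 : (1 + r) ≠ 0 := by positivity
  have h3 : r ≠ 0 := hr.ne'
  have key : 1 / (1 + u) - (1 / (1 + r) - (u ^ 2 - r ^ 2) / (2 * r * (1 + r) ^ 2)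
      + (1 + 3 * r) * (u ^ 2 - r ^ 2) ^ 2 / (8 * r ^ 3 * (1 + r) ^ 3)
      - (1 + 4 * r + 5 * r ^ 2) * (u ^ 2 - r ^ 2) ^ 3 / (16 * r ^ 5 * (1 + r) ^ 4))
      = (u - r) ^ 4 * (5 * r ^ 2 + 20 * r ^ 3 + 29 * r ^ 4 + 16 * r ^ 5
        + u * (4 * r + 21 * r ^ 2 + 40 * r ^ 3 + 29 * r ^ 4)
        + u ^ 2 * (1 + 8 * r + 21 * r ^ 2 + 20 * r ^ 3)
        + u ^ 3 * (1 + 4 * r + 5 * r ^ 2)) / (16 * r ^ 5 * (1 + r) ^ 4 * (1 + u)) := by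
    field_simp
    ring
  have : 0 ≤ (u - r) ^ 4 * (5 * r ^ 2 + 20 * r ^ 3 + 29 * r ^ 4 + 16 * r ^ 5
        + u * (4 * r + 21 * r ^ 2 + 40 * r ^ 3 + 29 * r ^ 4)
        + u ^ 2 * (1 + 8 * r + 21 * r ^ 2 + 20 * r ^ 3)
        + u ^ 3 * (1 + 4 * r + 5 * r ^ 2)) / (16 * r ^ 5 * (1 + r) ^ 4 * (1 + u)) := by
    positivity
  linarith

/-- Strict subharmonicity of `1 / (1 + ‖w‖)` outside the unit disc, in a four-point form. -/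
lemma sub4 (w : ℂ) (hw : 1 < ‖w‖) : ∀ᶠ δ : ℝ in 𝓝[>] (0 : ℝ),
    4 / (1 + ‖w‖) < 1 / (1 + ‖w + δ‖) + 1 / (1 + ‖w - δ‖)
      + 1 / (1 + ‖w + δ * I‖) + 1 / (1 + ‖w - δ * I‖) := by
  obtain ⟨r, hr⟩ : ∃ r : ℝ, r = ‖w‖ := ⟨_, rfl⟩
  have hr1 : 1 < r := by rw [hr]; exact hw
  have hr0 : 0 < r := by linarith
  let E : ℝ → ℝ := fun δ => -4 / (2 * r * (1 + r) ^ 2)
      + (1 + 3 * r) * (8 * r ^ 2 + 4 * δ ^ 2) / (8 * r ^ 3 * (1 + r) ^ 3)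
      - (1 + 4 * r + 5 * r ^ 2) * (24 * r ^ 2 * δ ^ 2 + 4 * δ ^ 4) / (16 * r ^ 5 * (1 + r) ^ 4)
  have hE0 : 0 < E 0 := by
    have : E 0 = (r - 1) / (r * (1 + r) ^ 3) := by
      simp only [E]; field_simp; ring
    rw [this]
    exact div_pos (by linarith) (by positivity)
  have hEc : ContinuousAt E 0 := by
    apply Continuous.continuousAt
    simp only [E]; fun_prop
  have hev : ∀ᶠ δ : ℝ in 𝓝[>] (0 : ℝ), 0 < E δ :=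
    (hEc.eventually (lt_mem_nhds hE0)).filter_mono nhdsWithin_le_nhds
  filter_upwards [hev, self_mem_nhdsWithin] with δ hδ hpos
  have hpos' : 0 < δ := hpos
  have hn := norm_sq_eq w
  have n1 : ‖w + δ‖ ^ 2 - r ^ 2 = δ ^ 2 + 2 * δ * w.re := by
    rw [norm_sq_eq, hr, hn]; simp; ring
  have n2 : ‖w - δ‖ ^ 2 - r ^ 2 = δ ^ 2 - 2 * δ * w.re := by
    rw [norm_sq_eq, hr, hn]; simp; ring
  have n3 : ‖w + δ * I‖ ^ 2 - r ^ 2 = δ ^ 2 + 2 * δ * w.im := by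
    rw [norm_sq_eq, hr, hn]; simp; ring
  have n4 : ‖w - δ * I‖ ^ 2 - r ^ 2 = δ ^ 2 - 2 * δ * w.im := by
    rw [norm_sq_eq, hr, hn]; simp; ring
  have t1 := T3_le r ‖w + δ‖ hr0 (norm_nonneg _)
  have t2 := T3_le r ‖w - δ‖ hr0 (norm_nonneg _)
  have t3 := T3_le r ‖w + δ * I‖ hr0 (norm_nonneg _)
  have t4 := T3_le r ‖w - δ * I‖ hr0 (norm_nonneg _)
  rw [n1] at t1
  rw [n2] at t2
  rw [n3] at t3
  rw [n4] at t4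
  rw [← hr]
  have hn' : w.re ^ 2 + w.im ^ 2 = r ^ 2 := by rw [hr]; exact hn.symm
  have him : w.im ^ 2 = r ^ 2 - w.re ^ 2 := by linarith
  have hsum : (1 / (1 + r) - (δ ^ 2 + 2 * δ * w.re) / (2 * r * (1 + r) ^ 2)
      + (1 + 3 * r) * (δ ^ 2 + 2 * δ * w.re) ^ 2 / (8 * r ^ 3 * (1 + r) ^ 3)
      - (1 + 4 * r + 5 * r ^ 2) * (δ ^ 2 + 2 * δ * w.re) ^ 3 / (16 * r ^ 5 * (1 + r) ^ 4))
      + (1 / (1 + r) - (δ ^ 2 - 2 * δ * w.re) / (2 * r * (1 + r) ^ 2)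
      + (1 + 3 * r) * (δ ^ 2 - 2 * δ * w.re) ^ 2 / (8 * r ^ 3 * (1 + r) ^ 3)
      - (1 + 4 * r + 5 * r ^ 2) * (δ ^ 2 - 2 * δ * w.re) ^ 3 / (16 * r ^ 5 * (1 + r) ^ 4))
      + (1 / (1 + r) - (δ ^ 2 + 2 * δ * w.im) / (2 * r * (1 + r) ^ 2)
      + (1 + 3 * r) * (δ ^ 2 + 2 * δ * w.im) ^ 2 / (8 * r ^ 3 * (1 + r) ^ 3)
      - (1 + 4 * r + 5 * r ^ 2) * (δ ^ 2 + 2 * δ * w.im) ^ 3 / (16 * r ^ 5 * (1 + r) ^ 4))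
      + (1 / (1 + r) - (δ ^ 2 - 2 * δ * w.im) / (2 * r * (1 + r) ^ 2)
      + (1 + 3 * r) * (δ ^ 2 - 2 * δ * w.im) ^ 2 / (8 * r ^ 3 * (1 + r) ^ 3)
      - (1 + 4 * r + 5 * r ^ 2) * (δ ^ 2 - 2 * δ * w.im) ^ 3 / (16 * r ^ 5 * (1 + r) ^ 4))
      = 4 / (1 + r) + δ ^ 2 * E δ := by
    have p1 : (δ ^ 2 + 2 * δ * w.re) ^ 2 + (δ ^ 2 - 2 * δ * w.re) ^ 2
        + (δ ^ 2 + 2 * δ * w.im) ^ 2 + (δ ^ 2 - 2 * δ * w.im) ^ 2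
        = δ ^ 2 * (8 * r ^ 2 + 4 * δ ^ 2) := by
      rw [← hn']; ring
    have p2 : (δ ^ 2 + 2 * δ * w.re) ^ 3 + (δ ^ 2 - 2 * δ * w.re) ^ 3
        + (δ ^ 2 + 2 * δ * w.im) ^ 3 + (δ ^ 2 - 2 * δ * w.im) ^ 3
        = δ ^ 2 * (24 * r ^ 2 * δ ^ 2 + 4 * δ ^ 4) := by
      rw [← hn']; ring
    have : ∀ x1 x2 x3 x4 : ℝ, (1 / (1 + r) - x1 / (2 * r * (1 + r) ^ 2)
      + (1 + 3 * r) * x1 ^ 2 / (8 * r ^ 3 * (1 + r) ^ 3)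
      - (1 + 4 * r + 5 * r ^ 2) * x1 ^ 3 / (16 * r ^ 5 * (1 + r) ^ 4))
      + (1 / (1 + r) - x2 / (2 * r * (1 + r) ^ 2)
      + (1 + 3 * r) * x2 ^ 2 / (8 * r ^ 3 * (1 + r) ^ 3)
      - (1 + 4 * r + 5 * r ^ 2) * x2 ^ 3 / (16 * r ^ 5 * (1 + r) ^ 4))
      + (1 / (1 + r) - x3 / (2 * r * (1 + r) ^ 2)
      + (1 + 3 * r) * x3 ^ 2 / (8 * r ^ 3 * (1 + r) ^ 3)
      - (1 + 4 * r + 5 * r ^ 2) * x3 ^ 3 / (16 * r ^ 5 * (1 + r) ^ 4))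
      + (1 / (1 + r) - x4 / (2 * r * (1 + r) ^ 2)
      + (1 + 3 * r) * x4 ^ 2 / (8 * r ^ 3 * (1 + r) ^ 3)
      - (1 + 4 * r + 5 * r ^ 2) * x4 ^ 3 / (16 * r ^ 5 * (1 + r) ^ 4))
      = 4 / (1 + r) - (x1 + x2 + x3 + x4) / (2 * r * (1 + r) ^ 2)
        + (1 + 3 * r) * (x1 ^ 2 + x2 ^ 2 + x3 ^ 2 + x4 ^ 2) / (8 * r ^ 3 * (1 + r) ^ 3)
        - (1 + 4 * r + 5 * r ^ 2) * (x1 ^ 3 + x2 ^ 3 + x3 ^ 3 + x4 ^ 3)
          / (16 * r ^ 5 * (1 + r) ^ 4) := by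
      intro x1 x2 x3 x4; ring
    rw [this, p1, p2]
    simp only [E]
    ring
  have : 0 < δ ^ 2 * E δ := by positivity
  linarith

end Pool.Agent.W_MP_56bea1_an
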