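import Pool.Agent.W_MP_56bea1_an.Local

namespace Pool.Agent.W_MP_56bea1_an

open Filter Topology Complex

variable {ι : Type*} [Fintype ι]

/-- The potential of the charges `y i` at the points `z i`, kernel `1 / (1 + distance)`. -/
noncomputable def V (z : ι → ℂ) (y : ι → ℝ) (p : ℂ) : ℝ := ∑ i, y i * (1 / (1 + ‖p - z i‖))

lemma V_continuous (z : ι → ℂ) (y : ι → ℝ) : Continuous (V z y) := by
  unfold V
  refine continuous_finsetSum _ fun i _ => ?_
  refine continuous_const.mul (continuous_const.div (by fun_prop) fun p => ?_)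
  positivity

lemma V_tendsto (z : ι → ℂ) (y : ι → ℝ) : Tendsto (V z y) (cocompact ℂ) (𝓝 0) := by
  unfold V
  have : (0 : ℝ) = ∑ i : ι, y i * 0 := by simp
  rw [this]
  refine tendsto_finsetSum _ fun i _ => ?_
  refine Tendsto.const_mul _ ?_
  have h1 : Tendsto (fun p : ℂ => p - z i) (cocompact ℂ) (cocompact ℂ) :=
    (Homeomorph.subRight (z i)).isClosedEmbedding.tendsto_cocompact
  have h2 : Tendsto (fun p : ℂ => ‖p - z i‖) (cocompact ℂ) atTop :=
    (tendsto_norm_cocompact_atTop).comp h1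
  have h3 : Tendsto (fun p : ℂ => 1 + ‖p - z i‖) (cocompact ℂ) atTop :=
    tendsto_atTop_add_const_left _ _ h2
  simp only [one_div]
  exact h3.inv_tendsto_atTop

/-- Derivative of one kernel term along the outward radial direction. -/
lemma hasDerivAt_term (e w : ℂ) (he : ‖e‖ = 1) (hb : 0 < ‖e - w‖) :
    HasDerivAt (fun τ : ℝ => 1 / (1 + ‖e + τ * e - w‖))
      (((w * (starRingEnd ℂ) e).re - 1) / (‖e - w‖ * (1 + ‖e - w‖) ^ 2)) 0 := by
  set s : ℂ := w * (starRingEnd ℂ) e with hs
  have hee : e * (starRingEnd ℂ) e = 1 := by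
    rw [Complex.mul_conj, Complex.normSq_eq_norm_sq, he]; simp
  have hce : ‖(starRingEnd ℂ) e‖ = 1 := by rw [Complex.norm_conj, he]
  have hnorm : ∀ τ : ℝ, ‖e + τ * e - w‖ = Real.sqrt ((1 + τ - s.re) ^ 2 + s.im ^ 2) := by
    intro τ
    have h1 : ‖e + τ * e - w‖ = ‖(e + τ * e - w) * (starRingEnd ℂ) e‖ := by
      rw [norm_mul, hce, mul_one]
    have h2 : (e + τ * e - w) * (starRingEnd ℂ) e = 1 + τ - s := by
      rw [hs]; linear_combination (1 + (τ : ℂ)) * hee
    rw [h1, h2, Complex.norm_eq_sqrt_sq_add_sq]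
    simp
  have h0 : ‖e - w‖ = Real.sqrt ((1 - s.re) ^ 2 + s.im ^ 2) := by
    have := hnorm 0; simpa using this
  have hpos : 0 < (1 - s.re) ^ 2 + s.im ^ 2 := by
    rw [h0] at hb; exact Real.sqrt_pos.1 hb
  have hd1 : HasDerivAt (fun τ : ℝ => (1 + τ - s.re) ^ 2 + s.im ^ 2) (2 * (1 - s.re)) 0 := by
    have h := (((hasDerivAt_id (0 : ℝ)).const_add 1).sub_const s.re).pow 2
    have h' := h.add_const (s.im ^ 2)
    refine h'.congr_deriv ?_
    simp
  have hd2 : HasDerivAt (fun τ : ℝ => Real.sqrt ((1 + τ - s.re) ^ 2 + s.im ^ 2))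
      (2 * (1 - s.re) / (2 * Real.sqrt ((1 + 0 - s.re) ^ 2 + s.im ^ 2))) 0 := by
    refine hd1.sqrt ?_
    simpa using hpos.ne'
  have hd3 := hd2.const_add (1 : ℝ)
  have hd4 := hd3.inv (by positivity)
  have hfun : (fun τ : ℝ => 1 / (1 + ‖e + τ * e - w‖))
      = (fun τ : ℝ => (1 + Real.sqrt ((1 + τ - s.re) ^ 2 + s.im ^ 2))⁻¹) := by
    funext τ; rw [hnorm τ, one_div]
  rw [hfun]
  refine hd4.congr_deriv ?_
  rw [h0]
  simp only [add_zero]
  have hq : Real.sqrt ((1 - s.re) ^ 2 + s.im ^ 2) ≠ 0 := (Real.sqrt_pos.2 hpos).ne'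
  have hq1 : 1 + Real.sqrt ((1 - s.re) ^ 2 + s.im ^ 2) ≠ 0 := by positivity
  field_simp
  ring

/-- The maximum principle for strictly separated charges. -/
lemma core (z : ι → ℂ) (y : ι → ℝ) (hy : ∀ i, 0 ≤ y i) (hne : ∃ i, 0 < y i)
    (hsep : ∀ i j, 0 < y i → 0 < y j → i ≠ j → 2 < ‖z i - z j‖)
    (c : ℂ) (hc : ∀ i, 0 < y i → 1 ≤ ‖c - z i‖) :
    ∃ t, 0 < y t ∧ V z y c + y t / 10 ≤ V z y (z t) := by
  classical
  -- existence of a maximum
  set Ω : Set ℂ := {p | ∀ i, 0 < y i → 1 ≤ ‖p - z i‖} with hΩ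
  have hΩc : IsClosed Ω := by
    have : Ω = ⋂ i, ⋂ (_ : 0 < y i), {p : ℂ | 1 ≤ ‖p - z i‖} := by
      ext p; simp [hΩ]
    rw [this]
    refine isClosed_iInter fun i => isClosed_iInter fun _ => ?_
    exact isClosed_le continuous_const (by fun_prop)
  have hcΩ : c ∈ Ω := hc
  have hVc : 0 < V z y c := by
    obtain ⟨i, hi⟩ := hne
    unfold V
    refine Finset.sum_pos' (fun j _ => mul_nonneg (hy j) (by positivity)) ⟨i, Finset.mem_univ i, ?_⟩
    positivity
  obtain ⟨p, hpΩ, hpmax⟩ : ∃ p ∈ Ω, ∀ q ∈ Ω, V z y q ≤ V z y p := by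
    have hev : ∀ᶠ q in cocompact ℂ, V z y q < V z y c :=
      (V_tendsto z y).eventually (gt_mem_nhds hVc)
    obtain ⟨K, hK, hKsub⟩ := mem_cocompact.1 hev
    have hcomp : IsCompact (K ∩ Ω) := hK.inter_right hΩc
    have hcK : c ∈ K := by
      by_contra h
      have : c ∈ Kᶜ := h
      have h' : V z y c < V z y c := hKsub this
      exact lt_irrefl _ h'
    obtain ⟨p, hp, hmax⟩ := hcomp.exists_isMaxOn ⟨c, hcK, hcΩ⟩ (V_continuous z y).continuousOn
    refine ⟨p, hp.2, fun q hq => ?_⟩
    by_cases hqK : q ∈ K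
    · exact hmax ⟨hqK, hq⟩
    · have h1 : V z y q < V z y c := hKsub (show q ∈ Kᶜ from hqK)
      have h2 : V z y c ≤ V z y p := hmax ⟨hcK, hcΩ⟩
      linarith
  -- the maximum is on one of the circles
  obtain ⟨t, hyt, hpt⟩ : ∃ t, 0 < y t ∧ ‖p - z t‖ = 1 := by
    by_contra hcon
    push Not at hcon
    have hgt : ∀ i, 0 < y i → 1 < ‖p - z i‖ := fun i hi =>
      lt_of_le_of_ne (hpΩ i hi) (hcon i hi).symm
    have hev1 : ∀ᶠ δ : ℝ in 𝓝[>] (0 : ℝ), ∀ i, 0 < y i →
        4 / (1 + ‖p - z i‖) < 1 / (1 + ‖(p - z i) + δ‖) + 1 / (1 + ‖(p - z i) - δ‖)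
        + 1 / (1 + ‖(p - z i) + δ * I‖) + 1 / (1 + ‖(p - z i) - δ * I‖) := by
      rw [eventually_all]
      intro i
      by_cases hi : 0 < y i
      · filter_upwards [sub4 (p - z i) (hgt i hi)] with δ hδ _ using hδ
      · exact Eventually.of_forall fun δ h => absurd h hi
    have hcont : ∀ (g : ℝ → ℂ), Continuous g → g 0 = p →
        ∀ᶠ δ : ℝ in 𝓝[>] (0 : ℝ), g δ ∈ Ω := by
      intro g hg hg0
      have : ∀ᶠ δ : ℝ in 𝓝[>] (0 : ℝ), ∀ i, 0 < y i → 1 ≤ ‖g δ - z i‖ := by
        rw [eventually_all]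
        intro i
        by_cases hi : 0 < y i
        · have hc1 : ContinuousAt (fun δ : ℝ => ‖g δ - z i‖) 0 := by
            apply Continuous.continuousAt; fun_prop
          have h1 : ∀ᶠ δ : ℝ in 𝓝 (0 : ℝ), 1 < ‖g δ - z i‖ := by
            apply hc1.eventually (lt_mem_nhds _)
            simp only [hg0]; exact hgt i hi
          filter_upwards [h1.filter_mono nhdsWithin_le_nhds] with δ hδ _ using hδ.le
        · exact Eventually.of_forall fun δ h => absurd h hi
      exact this
    have e1 := hcont (fun δ => p + δ) (by fun_prop) (by simp)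
    have e2 := hcont (fun δ => p - δ) (by fun_prop) (by simp)
    have e3 := hcont (fun δ => p + δ * I) (by fun_prop) (by simp)
    have e4 := hcont (fun δ => p - δ * I) (by fun_prop) (by simp)
    obtain ⟨δ, h0, h1, h2, h3, h4⟩ :=
      ((hev1.and (e1.and (e2.and (e3.and e4)))).exists)
    have m1 := hpmax _ h1
    have m2 := hpmax _ h2
    have m3 := hpmax _ h3
    have m4 := hpmax _ h4
    have hlt : 4 * V z y p < V z y (p + δ) + V z y (p - δ) + V z y (p + δ * I)
        + V z y (p - δ * I) := by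
      have hl : 4 * V z y p = ∑ i, y i * (4 / (1 + ‖p - z i‖)) := by
        unfold V; rw [Finset.mul_sum]; exact Finset.sum_congr rfl fun i _ => by ring
      have hr : V z y (p + δ) + V z y (p - δ) + V z y (p + δ * I) + V z y (p - δ * I)
          = ∑ i, y i * (1 / (1 + ‖(p - z i) + δ‖) + 1 / (1 + ‖(p - z i) - δ‖)
        + 1 / (1 + ‖(p - z i) + δ * I‖) + 1 / (1 + ‖(p - z i) - δ * I‖)) := by
        unfold V
        rw [← Finset.sum_add_distrib, ← Finset.sum_add_distrib, ← Finset.sum_add_distrib]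
        refine Finset.sum_congr rfl fun i _ => ?_
        rw [show p + δ - z i = (p - z i) + δ by ring, show p - δ - z i = (p - z i) - δ by ring,
          show p + δ * I - z i = (p - z i) + δ * I by ring,
          show p - δ * I - z i = (p - z i) - δ * I by ring]
        ring
      rw [hl, hr]
      obtain ⟨i, hi⟩ := hne
      refine Finset.sum_lt_sum (fun j _ => ?_) ⟨i, Finset.mem_univ i, ?_⟩
      · rcases (hy j).eq_or_lt with hj | hj
        · rw [← hj]; simp
        · exact mul_le_mul_of_nonneg_left (h0 j hj).le hj.le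
      · exact mul_lt_mul_of_pos_left (h0 i hi) hi
    linarith
  -- analysis on the circle
  refine ⟨t, hyt, ?_⟩
  set e : ℂ := p - z t with he
  have hce : ‖(starRingEnd ℂ) e‖ = 1 := by rw [Complex.norm_conj, hpt]
  have hee : e * (starRingEnd ℂ) e = 1 := by
    rw [Complex.mul_conj, Complex.normSq_eq_norm_sq, hpt]; simp
  have hother : ∀ i, 0 < y i → i ≠ t → 1 < ‖p - z i‖ := by
    intro i hi hit
    have h1 := hsep i t hi hyt hit
    have h2 : ‖z i - z t‖ ≤ ‖p - z i‖ + ‖p - z t‖ := by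
      have : z i - z t = (p - z t) - (p - z i) := by ring
      rw [this]
      have := norm_sub_le (p - z t) (p - z i)
      linarith
    rw [hpt] at h2
    linarith
  have hcirc : ∀ o : ℂ, ‖o‖ = 1 → V z y (z t + o * e) ≤ V z y p := by
    intro o ho
    apply hpmax
    intro i hi
    by_cases hit : i = t
    · subst hit
      have : z i + o * e - z i = o * e := by ring
      rw [this, norm_mul, ho, hpt]; norm_num
    · have h1 := hsep i t hi hyt hit
      have h2 : ‖z i - z t‖ ≤ ‖z t + o * e - z i‖ + ‖o * e‖ := by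
        have : z i - z t = o * e - (z t + o * e - z i) := by ring
        rw [this]
        have := norm_sub_le (o * e) (z t + o * e - z i)
        linarith
      rw [norm_mul, ho, hpt] at h2
      linarith
  -- radial derivative
  set D : ι → ℝ := fun i => (((z i - z t) * (starRingEnd ℂ) e).re - 1) /
    (‖e - (z i - z t)‖ * (1 + ‖e - (z i - z t)‖) ^ 2) with hD
  have hbpos : ∀ i, 0 < y i → 0 < ‖e - (z i - z t)‖ := by
    intro i hi
    have : e - (z i - z t) = p - z i := by rw [he]; ring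
    rw [this]
    have := hpΩ i hi
    linarith
  have hder : HasDerivAt (fun τ : ℝ => V z y (p + τ * e)) (∑ i, y i * D i) 0 := by
    unfold V
    refine HasDerivAt.fun_sum fun i _ => ?_
    rcases (hy i).eq_or_lt with hi | hi
    · rw [← hi]
      simp only [zero_mul]
      exact hasDerivAt_const _ _
    · refine HasDerivAt.const_mul _ ?_
      have := hasDerivAt_term e (z i - z t) hpt (hbpos i hi)
      refine this.congr_of_eventuallyEq ?_
      refine Eventually.of_forall fun τ => ?_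
      simp only
      rw [show p + (τ : ℂ) * e - z i = e + τ * e - (z i - z t) by rw [he]; ring]
  have hDle : ∑ i, y i * D i ≤ 0 := by
    have hev : ∀ᶠ τ : ℝ in 𝓝[>] (0 : ℝ), p + (τ : ℂ) * e ∈ Ω := by
      have : ∀ᶠ τ : ℝ in 𝓝[>] (0 : ℝ), ∀ i, 0 < y i → 1 ≤ ‖p + (τ : ℂ) * e - z i‖ := by
        rw [eventually_all]
        intro i
        by_cases hi : 0 < y i
        · by_cases hit : i = t
          · subst hit
            filter_upwards [self_mem_nhdsWithin] with τ hτ _
            have hτ' : (0 : ℝ) < τ := hτ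
            have : p + (τ : ℂ) * e - z i = ((1 + τ : ℝ) : ℂ) * e := by rw [he]; push_cast; ring
            rw [this, norm_mul, hpt, mul_one, Complex.norm_real, Real.norm_eq_abs,
              abs_of_pos (by linarith)]
            linarith
          · have hc1 : ContinuousAt (fun τ : ℝ => ‖p + (τ : ℂ) * e - z i‖) 0 := by
              apply Continuous.continuousAt; fun_prop
            have h1 : ∀ᶠ τ : ℝ in 𝓝 (0 : ℝ), 1 < ‖p + (τ : ℂ) * e - z i‖ := by
              apply hc1.eventually (lt_mem_nhds _)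
              simpa using hother i hi hit
            filter_upwards [h1.filter_mono nhdsWithin_le_nhds] with τ hτ _ using hτ.le
        · exact Eventually.of_forall fun δ h => absurd h hi
      exact this
    have htend := (hasDerivAt_iff_tendsto_slope.1 hder).mono_left
      (nhdsWithin_mono (0 : ℝ) (show Set.Ioi (0 : ℝ) ⊆ {0}ᶜ from fun x hx => ne_of_gt hx))
    refine le_of_tendsto htend ?_
    filter_upwards [hev, self_mem_nhdsWithin] with τ hτ hτ0
    have hτ0' : (0 : ℝ) < τ := hτ0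
    rw [slope_def_field]
    have := hpmax _ hτ
    refine div_nonpos_of_nonpos_of_nonneg ?_ (by linarith)
    simpa using this
  -- the certificate
  have hs : ∀ i, F ((z i - z t) * (starRingEnd ℂ) e)
      = 1 / (1 + ‖z t - z i‖) + (3 / 2) * (1 / (1 + ‖z t + om * e - z i‖)
        + 1 / (1 + ‖z t + om' * e - z i‖)) - 4 / (1 + ‖p - z i‖) + (8 / 5) * D i := by
    intro i
    have n0 : ‖(z i - z t) * (starRingEnd ℂ) e‖ = ‖z t - z i‖ := by
      rw [norm_mul, hce, mul_one, norm_sub_rev]
    have n1 : ∀ o : ℂ, ‖o - (z i - z t) * (starRingEnd ℂ) e‖ = ‖z t + o * e - z i‖ := by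
      intro o
      have : o - (z i - z t) * (starRingEnd ℂ) e
          = (z t + o * e - z i) * (starRingEnd ℂ) e := by
        linear_combination -o * hee
      rw [this, norm_mul, hce, mul_one]
    have n2 : ‖1 - (z i - z t) * (starRingEnd ℂ) e‖ = ‖p - z i‖ := by
      rw [n1 1]; congr 1; rw [he]; ring
    have n3 : ‖e - (z i - z t)‖ = ‖p - z i‖ := by congr 1; rw [he]; ring
    simp only [F, hD]
    rw [n0, n1 om, n1 om', n2, n3]
  have hsum : V z y (z t) + (3 / 2) * (V z y (z t + om * e) + V z y (z t + om' * e))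
      - 4 * V z y p + (8 / 5) * ∑ i, y i * D i
      = ∑ i, y i * F ((z i - z t) * (starRingEnd ℂ) e) := by
    simp only [hs]
    unfold V
    rw [Finset.mul_sum, Finset.mul_sum, ← Finset.sum_add_distrib, Finset.mul_sum,
      ← Finset.sum_add_distrib, ← Finset.sum_sub_distrib, ← Finset.sum_add_distrib]
    refine Finset.sum_congr rfl fun i _ => ?_
    ring
  have hFt : F ((z t - z t) * (starRingEnd ℂ) e) = 1 / 10 := by
    rw [sub_self, zero_mul]; exact F_zero
  have hge : y t / 10 ≤ ∑ i, y i * F ((z i - z t) * (starRingEnd ℂ) e) := by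
    rw [← Finset.add_sum_erase _ _ (Finset.mem_univ t), hFt]
    have : 0 ≤ ∑ i ∈ Finset.univ.erase t, y i * F ((z i - z t) * (starRingEnd ℂ) e) := by
      refine Finset.sum_nonneg fun i hi => ?_
      have hit : i ≠ t := Finset.ne_of_mem_erase hi
      rcases (hy i).eq_or_lt with h0 | h0
      · rw [← h0]; simp
      · refine mul_nonneg h0.le (F_nonneg _ ?_)
        rw [norm_mul, hce, mul_one]
        exact (hsep i t h0 hyt hit).le
    linarith
  have c1 := hcirc om norm_om
  have c2 := hcirc om' norm_om'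
  have c3 := hpmax c hcΩ
  linarith

/-- The maximum principle for charges at points with mutual distances at least `2`. -/
lemma max_principle (z : ι → ℂ) (y : ι → ℝ) (hy : ∀ i, 0 ≤ y i) (hne : ∃ i, 0 < y i)
    (hsep : ∀ i j, 0 < y i → 0 < y j → i ≠ j → 2 ≤ ‖z i - z j‖)
    (c : ℂ) (hc : ∀ i, 0 < y i → 1 ≤ ‖c - z i‖) :
    ∃ t, 0 < y t ∧ V z y c + y t / 10 ≤ V z y (z t) := by
  classical
  by_contra hcon
  push Not at hcon
  -- rescaled potentials
  set W : ℝ → ℂ → ℝ := fun ε p => ∑ i, y i * (1 / (1 + (1 + ε) * ‖p - z i‖)) with hW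
  have hW0 : ∀ p, W 0 p = V z y p := by intro p; simp [hW, V]
  have hWc : ∀ p, ContinuousAt (fun ε => W ε p) 0 := by
    intro p
    simp only [hW]
    refine tendsto_finsetSum _ fun i _ => ?_
    refine ContinuousAt.mul continuousAt_const ?_
    refine ContinuousAt.div continuousAt_const ?_ ?_
    · apply Continuous.continuousAt; fun_prop
    · simp only [add_zero, one_mul]; positivity
  have hev : ∀ᶠ ε : ℝ in 𝓝[>] (0 : ℝ), ∀ t, 0 < y t → W ε (z t) < W ε c + y t / 10 := by
    rw [eventually_all]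
    intro t
    by_cases ht : 0 < y t
    · have h1 : ContinuousAt (fun ε => W ε c + y t / 10 - W ε (z t)) 0 :=
        ((hWc c).add continuousAt_const).sub (hWc (z t))
      have h2 : ∀ᶠ ε : ℝ in 𝓝 (0 : ℝ), 0 < W ε c + y t / 10 - W ε (z t) := by
        apply h1.eventually (lt_mem_nhds _)
        simp only [hW0]
        have := hcon t ht
        linarith
      filter_upwards [h2.filter_mono nhdsWithin_le_nhds] with ε hε _
      linarith
    · exact Eventually.of_forall fun ε h => absurd h ht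
  obtain ⟨ε, hε, hε0⟩ := (hev.and self_mem_nhdsWithin).exists
  have hε0' : (0 : ℝ) < ε := hε0
  have hnorm : ∀ p q : ℂ, ‖((1 + ε : ℝ) : ℂ) * p - ((1 + ε : ℝ) : ℂ) * q‖
      = (1 + ε) * ‖p - q‖ := by
    intro p q
    rw [← mul_sub, norm_mul, Complex.norm_real, Real.norm_eq_abs, abs_of_pos (by linarith)]
  have hVW : ∀ p : ℂ, V (fun i => ((1 + ε : ℝ) : ℂ) * z i) y (((1 + ε : ℝ) : ℂ) * p) = W ε p := by
    intro p
    simp only [V, hW, hnorm]
  obtain ⟨t, ht, hle⟩ := core (fun i => ((1 + ε : ℝ) : ℂ) * z i) y hy hne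
    (fun i j hi hj hij => by
      rw [hnorm]
      have := hsep i j hi hj hij
      nlinarith)
    (((1 + ε : ℝ) : ℂ) * c) (fun i hi => by
      rw [hnorm]
      have := hc i hi
      nlinarith)
  rw [hVW, hVW] at hle
  have := hε t ht
  linarith

end Pool.Agent.W_MP_56bea1_an
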